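import Mathlib

set_option autoImplicit false

namespace Pool.Agent.Results.MP_21a028_co.FourLabels

open SimpleGraph

/-- labelled graphs built by the clique-width operations with labels in `Fin t` -/
inductive Built (t : ℕ) : (V : Type) → SimpleGraph V → (V → Fin t) → Prop
  | single (i : Fin t) : Built t Unit ⊥ fun _ => i
  | union {V W : Type} {G : SimpleGraph V} {H : SimpleGraph W} {l : V → Fin t} {m : W → Fin t} :
      Built t V G l → Built t W H m → Built t (V ⊕ W) (G ⊕g H) (Sum.elim l m)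
  | relabel {V : Type} {G : SimpleGraph V} {l : V → Fin t} (i j : Fin t) :
      Built t V G l → Built t V G fun v => if l v = i then j else l v
  | join {V : Type} {G : SimpleGraph V} {l : V → Fin t} (i j : Fin t) : i ≠ j →
      Built t V G l → Built t V (G ⊔ fromRel fun u v => l u = i ∧ l v = j) l

theorem Built.fin {t : ℕ} {V : Type} {G : SimpleGraph V} {l : V → Fin t} (h : Built t V G l) :
    Finite V := by
  induction h <;> infer_instance

theorem key {t : ℕ} {a b c d : Fin t} (ab : a ≠ b) (ac : a ≠ c) (ad : a ≠ d) (bc : b ≠ c)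
    (bd : b ≠ d) (cd : c ≠ d) (D : ℕ) : ∀ k l, l ≤ D + 1 →
    ∃ (V : Type) (G : SimpleGraph V) (m : V → Fin t), Built t V G m ∧ (∀ v, m v = a ∨ m v = b) ∧
      (∀ v, ∃ s : Finset V, (if m v = a then k else l) ≤ s.card ∧ ∀ u ∈ s, G.Adj v u) ∧
      (0 < l → ∃ s : Finset V, D + 1 ≤ s.card ∧ ∀ u ∈ s, m u = a) ∧
      ∀ χ : V → Prop, (∃ v, m v = a ∧ ∀ u, G.Adj v u → χ u) ∨
        ∃ v, m v = b ∧ ∀ u, G.Adj v u → ¬χ u := by
  classical
  intro k
  induction k with
  | zero =>
    have : ∀ n, ∃ (V : Type) (G : SimpleGraph V) (m : V → Fin t), Built t V G m ∧ G = ⊥ ∧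
        (∀ v, m v = a) ∧ ∃ s : Finset V, n + 1 ≤ s.card := fun n => by
      induction n with
      | zero => exact ⟨_, _, _, .single a, rfl, fun _ => rfl, {()}, le_rfl⟩
      | succ n ih =>
        obtain ⟨V, G, m, h1, rfl, h2, s, h3⟩ := ih
        refine ⟨_, _, _, h1.union (.single a), ?_, by simp [h2], s.disjSum {()}, by simpa⟩
        ext (u | u) (v | v) <;> simp
    obtain ⟨V, G, m, h1, rfl, h2, s, h3⟩ := this D
    obtain ⟨v, -⟩ := Finset.card_pos.1 (D.succ_pos.trans_le h3)
    exact fun l _ => ⟨V, _, m, h1, fun v => .inl (h2 v), fun v => ⟨∅, by simp [h2]⟩,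
      fun _ => ⟨s, h3, fun u _ => h2 u⟩, fun χ => .inl ⟨v, h2 v, by simp⟩⟩
  | succ k ih =>
    intro l
    induction l with
    | zero => exact fun _ => ⟨_, _, _, .single b, fun _ => .inr rfl, fun _ => ⟨∅, by simp [ab.symm]⟩,
        fun h => absurd h (lt_irrefl _), fun χ => .inr ⟨(), rfl, by simp⟩⟩
    | succ l ih2 =>
      intro hl
      obtain ⟨V, G, m, h1, h2, h3, h4, h5⟩ := ih _ hl
      obtain ⟨W, H, n, g1, g2, g3, -, g5⟩ := ih2 (by omega)
      obtain ⟨s, s1, s2⟩ := h4 l.succ_pos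
      have na : ∀ v, (m v ≠ c ∧ m v ≠ d) ∧ (m v = b ↔ m v ≠ a) := fun v => by
        rcases h2 v with h | h <;> simp [*, ab.symm]
      have nb : ∀ v, (n v ≠ c ∧ n v ≠ d) ∧ (n v = b ↔ n v ≠ a) := fun v => by
        rcases g2 v with h | h <;> simp [*, ab.symm]
      obtain ⟨K, q, B, q1, q2, q3, k1, k2, k3, k4, k5⟩ : ∃ (K : SimpleGraph ((V ⊕ Unit) ⊕ W))
          (q : (V ⊕ Unit) ⊕ W → Fin t), Built t _ K q ∧ (∀ v, q (.inl (.inl v)) = m v) ∧
          q (.inl (.inr ())) = b ∧ (∀ v, q (.inr v) = n v) ∧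
          (∀ u v, K.Adj (.inl (.inl u)) (.inl (.inl v)) ↔ G.Adj u v) ∧
          (∀ u v, K.Adj (.inr u) (.inr v) ↔ H.Adj u v) ∧
          (∀ u v, ¬K.Adj (.inl (.inl u)) (.inr v)) ∧
          (∀ u, K.Adj (.inl (.inl u)) (.inl (.inr ())) ↔ m u = a) ∧
          ∀ u, K.Adj (.inr u) (.inl (.inr ())) ↔ n u = b := by
        refine ⟨_, _, (((((h1.union (.single c)).join c a ac.symm).union (g1.relabel b d)).join
          c d cd).relabel d b).relabel c b, fun v => ?_, ?_, fun v => ?_, fun u v => ?_,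
          fun u v => ?_, fun u v => ?_, fun u => ?_, fun u => ?_⟩
        · simp [(na v).1]
        · simp [cd]
        · rcases g2 v with h | h <;> simp [h, ab, ac, ad, bc]
        · simp [(na v).1, (na u).1]
        · rcases g2 v with h | h <;> rcases g2 u with h' | h' <;>
            simp [h, h', ab, ac, cd.symm]
        · rcases g2 v with h | h <;> simp [h, ab, ac, cd.symm, (na u).1]
        · simp [(na u).1, cd, ac.symm]
        · rcases g2 u with h | h <;> simp [h, ab, ac, ad, cd, cd.symm]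
      let i1 : V ↪ (V ⊕ Unit) ⊕ W := Function.Embedding.inl.trans .inl
      refine ⟨_, K, q, B, ?_, ?_, fun _ => ⟨s.map i1, by simpa, by simpa [i1, q1] using s2⟩,
        fun χ => ?_⟩
      · rintro ((v | v) | v)
        exacts [q1 v ▸ h2 v, .inr q2, q3 v ▸ g2 v]
      · rintro ((v | v) | v)
        · obtain ⟨r, r1, r2⟩ := h3 v
          by_cases e : m v = a
          · exact ⟨insert (.inl (.inr ())) (r.map i1), by
              rw [Finset.card_insert_of_notMem (by simp [i1])]; simpa [q1, e] using r1,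
              by simpa [i1, k1, k4, e] using r2⟩
          · exact ⟨r.map i1, by simpa [q1, e] using r1, by simpa [i1, k1] using r2⟩
        · exact ⟨s.map i1, by simpa [q2, ab.symm] using hl.trans s1, by
            simpa [i1, K.adj_comm, k4] using s2⟩
        · obtain ⟨r, r1, r2⟩ := g3 v
          by_cases e : n v = a
          · exact ⟨r.map .inr, by simpa [q3, e] using r1, by simpa [k2] using r2⟩
          · exact ⟨insert (.inl (.inr ())) (r.map .inr), by
              rw [Finset.card_insert_of_notMem (by simp)]; simpa [q3, e] using r1,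
              by simpa [k2, k5, (nb v).2.2 e] using r2⟩
      · by_cases e : χ (.inl (.inr ()))
        · refine (h5 fun v => χ (.inl (.inl v))).imp (fun ⟨v, a1, a2⟩ => ⟨_, (q1 v).trans a1, ?_⟩)
            fun ⟨v, a1, a2⟩ => ⟨_, (q1 v).trans a1, ?_⟩ <;> rintro ((u | u) | u) h
          exacts [a2 u ((k1 _ _).1 h), e, (k3 _ _ h).elim, a2 u ((k1 _ _).1 h),
            ((na v).2.1 a1 ((k4 v).1 h)).elim, (k3 _ _ h).elim]
        · refine (g5 fun v => χ (.inr v)).imp (fun ⟨v, a1, a2⟩ => ⟨_, (q3 v).trans a1, ?_⟩)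
            fun ⟨v, a1, a2⟩ => ⟨_, (q3 v).trans a1, ?_⟩ <;> rintro ((u | u) | u) h
          exacts [(k3 _ _ h.symm).elim, ((nb v).2.1 ((k5 v).1 h) a1).elim, a2 u ((k2 _ _).1 h),
            (k3 _ _ h.symm).elim, e, a2 u ((k2 _ _).1 h)]

/-- For every `t ≥ 4` there are graphs of clique-width at most `t` with arbitrarily large minimum
degree and domatic number at most 3. -/
theorem result (t : ℕ) (ht : 4 ≤ t) (D : ℕ) :
    ∃ (V : Type) (G : SimpleGraph V) (m : V → Fin t), Finite V ∧ Built t V G m ∧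
      (∀ v, D ≤ (G.neighborSet v).ncard) ∧
      ∀ k, 3 < k → ∀ f : V → Fin k, ¬∀ v i, ∃ u, (u = v ∨ G.Adj v u) ∧ f u = i := by
  obtain ⟨V, G, m, h1, -, h3, -, h5⟩ := key (t := t) (a := ⟨0, by omega⟩) (b := ⟨1, by omega⟩)
    (c := ⟨2, by omega⟩) (d := ⟨3, by omega⟩) (by simp) (by simp) (by simp) (by simp) (by simp)
    (by simp) D D D D.le_succ
  have := h1.fin
  refine ⟨V, G, m, this, h1, fun v => ?_, fun k hk f h => ?_⟩
  · obtain ⟨s, s1, s2⟩ := h3 v
    exact (by simpa using s1 : D ≤ (s : Set V).ncard).trans (Set.ncard_le_ncard s2)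
  rcases h5 fun v => (f v).1 < 2 with ⟨v, -, a⟩ | ⟨v, -, a⟩
  · obtain ⟨u, u1, u2⟩ := h v ⟨2, by omega⟩
    obtain ⟨w, w1, w2⟩ := h v ⟨3, by omega⟩
    have := u1.imp (congrArg fun x => (f x).1) (a u)
    have := w1.imp (congrArg fun x => (f x).1) (a w)
    simp only [u2, w2] at *
    omega
  · obtain ⟨u, u1, u2⟩ := h v ⟨0, by omega⟩
    obtain ⟨w, w1, w2⟩ := h v ⟨1, by omega⟩
    have := u1.imp (congrArg fun x => (f x).1) (a u)
    have := w1.imp (congrArg fun x => (f x).1) (a w)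
    simp only [u2, w2] at *
    omega

end Pool.Agent.Results.MP_21a028_co.FourLabels
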